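import Pool.Agent.Helper74.NW.Win

/-!
# The number of instances of one type, and of all types
-/

namespace Pool.Agent.Helper66.NW

open Pool.Agent.Helper74.NW Pool.Agent.Helper19.NF
open Pool.Agent.Helper74.NS (Expands)

variable {n d h : ℕ} {B : Type} [AddCommGroup B] [NeZero (2 * h)] {S K : ℕ}

section chg

variable {a : ℕ} {g : Fin d → Equiv.Perm (Fin n)} {x0 : Fin n × Fin (2 * h) → B} {i : ℕ} {u : Fin a → Fin n}
  {r : Fin a → Fin d × Fin (2 * h)} {I : B → Fin d × Fin (2 * h) → B}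

theorem chg_ne {y : Fin a → Fin (2 * h) → B} (b : B) (hb : chg g x0 i u r y I b ≠ 0) :
    ∃ v, b = val (fine g) x0 I i v := by
  classical
  by_contra hcon
  apply hb
  funext c
  unfold chg
  refine Finset.sum_eq_zero fun j _ => Finset.sum_eq_zero fun t _ => ?_
  rw [if_neg]
  rintro ⟨h1, -⟩
  exact hcon ⟨_, h1⟩

theorem hole_add (hI : CF (fine g) x0 i I) (y : Fin a → Fin (2 * h) → B) (j : Fin a) :
    hole g x0 i u r (I + chg g x0 i u r y I) j = hole g x0 i u r I j := by
  unfold hole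
  rw [val_add hI _ chg_ne i le_rfl]

theorem chg_add_inst (hI : CF (fine g) x0 i I) (y y' : Fin a → Fin (2 * h) → B) :
    chg g x0 i u r y' (I + chg g x0 i u r y I) = chg g x0 i u r y' I := by
  classical
  have h1 : ∀ j, hole g x0 i u r (I + chg g x0 i u r y I) j = hole g x0 i u r I j := hole_add hI y
  funext b c
  show (∑ j, ∑ t, if b = hole g x0 i u r (I + chg g x0 i u r y I) j ∧ c = ((r j).1, (r j).2 - t) then y' j t
    else 0) = ∑ j, ∑ t, if b = hole g x0 i u r I j ∧ c = ((r j).1, (r j).2 - t) then y' j t else 0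
  simp only [h1]

theorem chg_neg (y : Fin a → Fin (2 * h) → B) : chg g x0 i u r (-y) I = -chg g x0 i u r y I := by
  classical
  funext b c
  rw [Pi.neg_apply, Pi.neg_apply]
  unfold chg
  rw [← Finset.sum_neg_distrib]
  refine Finset.sum_congr rfl fun j _ => ?_
  rw [← Finset.sum_neg_distrib]
  refine Finset.sum_congr rfl fun t _ => ?_
  split_ifs
  · rfl
  · rw [neg_zero]

/-- the changes are invertible -/
theorem shift_shift_neg (hI : CF (fine g) x0 i I) (y : Fin a → Fin (2 * h) → B) :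
    I + chg g x0 i u r y I + chg g x0 i u r (-y) (I + chg g x0 i u r y I) = I := by
  rw [chg_add_inst hI, chg_neg, add_assoc, add_neg_cancel, add_zero]

theorem CF_chg (hI : CF (fine g) x0 i I) (y : Fin a → Fin (2 * h) → B) :
    CF (fine g) x0 i (I + chg g x0 i u r y I) :=
  CF_add hI _ chg_ne

end chg

/-- W4a, from the bound for the classes. -/
theorem type_bound_of [Fintype B] (P : NProg B (Fin d × Fin (2 * h) → B) B S) (e : B → Fin K)
    (g : Fin d → Equiv.Perm (Fin n)) (x0 : Fin n × Fin (2 * h) → B)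
    {T i a Q : ℕ} (u : Fin a → Fin n) (r : Fin a → Fin d × Fin (2 * h)) (s t : Fin S)
    (h3 : ∀ I : B → Fin d × Fin (2 * h) → B, CF (fine g) x0 i I →
      Nat.card {y : Fin a → Fin (2 * h) → B // InX P e g x0 T i u r s t (I + chg g x0 i u r y I)} ≤ Q) :
    Nat.card {I : B → Fin d × Fin (2 * h) → B // InX P e g x0 T i u r s t I} * (Fintype.card B ^ (2 * h)) ^ a ≤
      Q * Nat.card (B → Fin d × Fin (2 * h) → B) := by
  classical
  let V : Type := B → Fin d × Fin (2 * h) → B
  -- pairs of an instance and a change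
  let PP : Type := {p : V × (Fin a → Fin (2 * h) → B) // CF (fine g) x0 i p.1 ∧
    InX P e g x0 T i u r s t (p.1 + chg g x0 i u r p.2 p.1)}
  have e1 : {I : V // InX P e g x0 T i u r s t I} × (Fin a → Fin (2 * h) → B) ≃ PP :=
    { toFun := fun q => ⟨(q.1.1 + chg g x0 i u r (-q.2) q.1.1, q.2), CF_chg q.1.2.1 _, by
        have h := shift_shift_neg (u := u) (r := r) q.1.2.1 (-q.2)
        rw [neg_neg] at h
        show InX P e g x0 T i u r s t (q.1.1 + chg g x0 i u r (-q.2) q.1.1 +
          chg g x0 i u r q.2 (q.1.1 + chg g x0 i u r (-q.2) q.1.1))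
        rw [h]
        exact q.1.2⟩
      invFun := fun p => (⟨p.1.1 + chg g x0 i u r p.1.2 p.1.1, p.2.2⟩, p.1.2)
      left_inv := by
        rintro ⟨⟨I, hI⟩, y⟩
        have h := shift_shift_neg (u := u) (r := r) hI.1 (-y)
        rw [neg_neg] at h
        refine Prod.ext (Subtype.ext ?_) rfl
        exact h
      right_inv := by
        rintro ⟨⟨I, y⟩, h1, h2⟩
        refine Subtype.ext (Prod.ext ?_ rfl)
        exact shift_shift_neg (u := u) (r := r) h1 y }
  have e2 : PP ≃ Σ I : {I : V // CF (fine g) x0 i I},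
      {y : Fin a → Fin (2 * h) → B // InX P e g x0 T i u r s t (I.1 + chg g x0 i u r y I.1)} :=
    { toFun := fun p => ⟨⟨p.1.1, p.2.1⟩, ⟨p.1.2, p.2.2⟩⟩
      invFun := fun q => ⟨(q.1.1, q.2.1), q.1.2, q.2.2⟩
      left_inv := fun p => rfl
      right_inv := fun q => rfl }
  have h1 : Nat.card {I : V // InX P e g x0 T i u r s t I} * (Fintype.card B ^ (2 * h)) ^ a =
      Nat.card PP := by
    rw [← Nat.card_congr e1, Nat.card_prod, Nat.card_fun, Nat.card_fun, Nat.card_eq_fintype_card,
      Nat.card_eq_fintype_card, Nat.card_eq_fintype_card, Nat.card_eq_fintype_card, Fintype.card_fin,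
      Fintype.card_fin]
  show Nat.card {I : V // InX P e g x0 T i u r s t I} * (Fintype.card B ^ (2 * h)) ^ a ≤ Q * Nat.card V
  rw [h1, Nat.card_congr e2, Nat.card_eq_fintype_card, Fintype.card_sigma]
  calc ∑ I : {I : V // CF (fine g) x0 i I},
        Fintype.card {y : Fin a → Fin (2 * h) → B // InX P e g x0 T i u r s t (I.1 + chg g x0 i u r y I.1)}
      ≤ ∑ _I : {I : V // CF (fine g) x0 i I}, Q := by
        refine Finset.sum_le_sum fun I _ => ?_
        rw [← Nat.card_eq_fintype_card]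
        exact h3 I.1 I.2
    _ = Q * Fintype.card {I : V // CF (fine g) x0 i I} := by
        rw [Finset.sum_const, Finset.card_univ, smul_eq_mul, mul_comm]
    _ ≤ Q * Nat.card V := by
        rw [Nat.card_eq_fintype_card]
        exact Nat.mul_le_mul le_rfl (Fintype.card_subtype_le _)

theorem card_le_sum {X τ : Type} [Finite X] [Fintype τ] {P : X → Prop} {Q : τ → X → Prop}
    (h : ∀ x, P x → ∃ t, Q t x) : Nat.card {x // P x} ≤ ∑ t, Nat.card {x // Q t x} := by
  classical
  have := Fintype.ofFinite X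
  simp only [Nat.card_eq_fintype_card]
  rw [← Fintype.card_sigma]
  choose f hf using h
  refine Fintype.card_le_of_injective (fun x : {x // P x} =>
    (⟨f x.1 x.2, ⟨x.1, hf x.1 x.2⟩⟩ : Σ t, {x // Q t x})) ?_
  intro x x' hx
  exact Subtype.ext (congrArg (fun z : Σ t, {x // Q t x} => z.2.1) hx)

/-- W4b, from W2 and W3. -/
theorem good_bound_of [Fintype B] (P : NProg B (Fin d × Fin (2 * h) → B) B S) (e : B → Fin K)
    (g : Fin d → Equiv.Perm (Fin n)) (x0 : Fin n × Fin (2 * h) → B) {R T a Q : ℕ} (ha : 1 ≤ a)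
    (h2 : ∀ I : B → Fin d × Fin (2 * h) → B, CF (fine g) x0 R I → ∀ l : List B, 2 * a ≤ (outs g x0 I R l).card →
      (∀ i < R, ∀ p w q, l = p ++ w ++ q → (half g x0 I i w).card < a) → 2 ^ R * (2 * a) ≤ l.length)
    (h3 : ∀ i < R, ∀ u : Fin a → Fin n, StrictMono u → ∀ (r : Fin a → Fin d × Fin (2 * h)) (s t : Fin S)
      (I : B → Fin d × Fin (2 * h) → B), CF (fine g) x0 i I →
      Nat.card {y : Fin a → Fin (2 * h) → B // InX P e g x0 T i u r s t (I + chg g x0 i u r y I)} ≤ Q) :
    Nat.card {I : B → Fin d × Fin (2 * h) → B // CF (fine g) x0 R I ∧ ∃ l t, Best P e I P.start l t ∧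
        Nat.card {c // c ∈ l} ≤ T ∧ 2 * a ≤ (outs g x0 I R l).card ∧ l.length ≤ 2 ^ R} *
          (Fintype.card B ^ (2 * h)) ^ a ≤
      R * n.choose a * (d * (2 * h)) ^ a * S ^ 2 * Q * Nat.card (B → Fin d × Fin (2 * h) → B) := by
  classical
  let V : Type := B → Fin d × Fin (2 * h) → B
  let τ : Type := Fin R × {D : Finset (Fin n) // D.card = a} × (Fin a → Fin d × Fin (2 * h)) × Fin S × Fin S
  -- every good instance has a type
  have hty : ∀ I : V, (CF (fine g) x0 R I ∧ ∃ l t, Best P e I P.start l t ∧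
      Nat.card {c // c ∈ l} ≤ T ∧ 2 * a ≤ (outs g x0 I R l).card ∧ l.length ≤ 2 ^ R) →
      ∃ x : τ, InX P e g x0 T x.1 (x.2.1.1.orderEmbOfFin x.2.1.2) x.2.2.1 x.2.2.2.1 x.2.2.2.2 I := by
    rintro I ⟨hI, l, t, hb, hT, hout, hlen⟩
    by_cases hcon : ∀ i < R, ∀ p w q, l = p ++ w ++ q → (half g x0 I i w).card < a
    · exfalso
      have h := h2 I hI l hout hcon
      have h4 : 0 < 2 ^ R := by positivity
      nlinarith
    · push Not at hcon
      obtain ⟨i, hi, p, w, q, hl, hw⟩ := hcon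
      obtain ⟨D, hD, hDa⟩ := Finset.exists_subset_card_eq hw
      subst hl
      obtain ⟨s', t', hbw⟩ := hb.window
      have hh : ∀ j : Fin a, h ≤ (Finset.univ.filter (fun t =>
          val (fine g) x0 I (i + 1) (D.orderEmbOfFin hDa j, t) ∈ w)).card ∧
          ∃ c : Fin d × Fin (2 * h), val (fine g) x0 I i (g c.1 (D.orderEmbOfFin hDa j), c.2) ∉ w := by
        intro j
        have h := hD (Finset.orderEmbOfFin_mem D hDa j)
        unfold half outs at h
        rw [Finset.mem_filter, Finset.mem_filter] at h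
        exact ⟨h.1.2, h.2⟩
      choose hh1 r hr using hh
      refine ⟨(⟨i, hi⟩, ⟨D, hDa⟩, r, s', t'), hI.mono hi.le, w, hbw, ?_, fun j => ⟨hh1 j, hr j⟩⟩
      refine le_trans ?_ hT
      refine Nat.card_le_card_of_injective (fun c : {c // c ∈ w} =>
        (⟨c.1, by simp [c.2]⟩ : {c // c ∈ p ++ w ++ q})) ?_
      intro c c' h
      exact Subtype.ext (congrArg (fun z : {c // c ∈ p ++ w ++ q} => z.1) h)
  calc _ ≤ (∑ x : τ, Nat.card {I : V //
          InX P e g x0 T x.1 (x.2.1.1.orderEmbOfFin x.2.1.2) x.2.2.1 x.2.2.2.1 x.2.2.2.2 I}) *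
          (Fintype.card B ^ (2 * h)) ^ a := Nat.mul_le_mul (card_le_sum hty) le_rfl
    _ = ∑ x : τ, Nat.card {I : V //
          InX P e g x0 T x.1 (x.2.1.1.orderEmbOfFin x.2.1.2) x.2.2.1 x.2.2.2.1 x.2.2.2.2 I} *
          (Fintype.card B ^ (2 * h)) ^ a := by rw [Finset.sum_mul]
    _ ≤ ∑ _x : τ, Q * Nat.card V := by
        refine Finset.sum_le_sum fun x _ => ?_
        exact type_bound_of P e g x0 _ _ _ _ fun I hI =>
          h3 x.1 x.1.2 _ (Finset.orderEmbOfFin x.2.1.1 x.2.1.2).strictMono _ _ _ I hI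
    _ = R * n.choose a * (d * (2 * h)) ^ a * S ^ 2 * Q * Nat.card V := by
        rw [Finset.sum_const, Finset.card_univ, smul_eq_mul]
        have hc : Fintype.card τ = R * (n.choose a * ((d * (2 * h)) ^ a * (S * S))) := by
          show Fintype.card (Fin R × {D : Finset (Fin n) // D.card = a} ×
            (Fin a → Fin d × Fin (2 * h)) × Fin S × Fin S) = _
          simp only [Fintype.card_prod, Fintype.card_fin, Fintype.card_fun, Fintype.card_finset_len]
        rw [hc]
        ring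

end Pool.Agent.Helper66.NW
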